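import Pool.Agent.Q73.SZ.Lin

/-!
# Soulé's conjecture and torsors: definitions
-/

set_option autoImplicit false

namespace Pool.Agent.Q73.SZ

universe u w

/-- Regular schemes `X` of finite type over `ℤ` whose zeta functions have a meromorphic
continuation to the complex plane (`Sch`), with the groups `K X n i = CH_n(X, i)_ℚ` (for `X` of
dimension `d` this is `H^{2(d-n)-i}(X, ℚ(d-n))`, so for `n = 0` it is `H^{2d-i}(X, ℚ(d))`), the
order `ord X n` of the zeta function of `X` at `s = n`, and three kinds of morphisms `X ⟶ Y`: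

* `Affine r X Y`: `X` is a torsor under a vector bundle of rank `r`, or under a split unipotent
  group scheme of dimension `r`;
* `Mult X Y`: `X` is a torsor under the multiplicative group;
* `Flag N X Y`: there are a split connected reductive group scheme `G` with Borel subgroup `B`, with
  `G / B` of relative dimension `N`, and a torsor `Z ⟶ Y` under `G` with `X = Z / B`. -/
structure Schemes where
  Sch : Type u
  K : Sch → ℤ → ℕ → Type w
  group : ∀ X n i, AddCommGroup (K X n i)
  module : ∀ X n i, Module ℚ (K X n i)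
  ord : Sch → ℤ → ℤ
  Affine : ℕ → Sch → Sch → Prop
  Mult : Sch → Sch → Prop
  Flag : ℕ → Sch → Sch → Prop

attribute [instance] Schemes.group Schemes.module

namespace Schemes

variable (D : Schemes.{u, w})

/-- Soulé's conjecture for `X` at `s = n`: the groups `CH_n(X, i)_ℚ` are finite dimensional, almost
all are zero, and the order of the zeta function at `s = n` is `-∑ (-1)^i dim CH_n(X, i)_ℚ`. -/
def Soule (X : D.Sch) (n : ℤ) : Prop := FD (D.K X n) ∧ D.ord X n = -chi (D.K X n)

/-- A composite `X ⟶ Y` of torsors under vector bundles and split unipotent groups, torsors under the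
multiplicative group, and flag bundles, of relative dimension `t`. -/
inductive Tower : ℕ → D.Sch → D.Sch → Prop
  | refl (X : D.Sch) : Tower 0 X X
  | affine {r t : ℕ} {X Y Z : D.Sch} : D.Affine r X Y → Tower t Y Z → Tower (r + t) X Z
  | mult {t : ℕ} {X Y Z : D.Sch} : D.Mult X Y → Tower t Y Z → Tower (1 + t) X Z
  | flag {N t : ℕ} {X Y Z : D.Sch} : D.Flag N X Y → Tower t Y Z → Tower (N + t) X Z

/-- The known properties which are used.

* `large`: for large `n` the groups `CH_n(X, i)` are zero and the zeta function has neither a zero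
  nor a pole at `s = n`;
* `affine`: homotopy invariance and `ζ(X, s) = ζ(Y, s - r)`;
* `mult`: for the line bundle `L` with complement `X` of the zero section, the localization
  sequence, with `CH_n(L, i) = CH_{n-1}(Y, i)`, and `ζ(X, s) = ζ(Y, s - 1) / ζ(Y, s)`;
* `flag`: the Chow groups (rational coefficients) and the zeta function of a flag bundle: one
  twist `N`, and twists smaller than `N`. -/
structure IsArithmetic : Prop where
  large : ∀ X : D.Sch, ∃ d : ℤ, ∀ n, d < n → D.ord X n = 0 ∧ ∀ i, Subsingleton (D.K X n i)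
  affine : ∀ r X Y, D.Affine r X Y → ∀ n, D.ord X n = D.ord Y (n - r) ∧
    ∀ i, Nonempty (D.K X n i ≃ₗ[ℚ] D.K Y (n - r) i)
  mult : ∀ X Y, D.Mult X Y → ∀ n, D.ord X n = D.ord Y (n - 1) - D.ord Y n ∧
    ∃ (f : ∀ i, D.K Y n i →ₗ[ℚ] D.K Y (n - 1) i) (g : ∀ i, D.K Y (n - 1) i →ₗ[ℚ] D.K X n i)
      (h : ∀ i, D.K X n (i + 1) →ₗ[ℚ] D.K Y n i), LongExact f g h
  flag : ∀ N X Y, D.Flag N X Y → ∃ (m : ℕ) (l : Fin m → ℕ), (∀ j, l j < N) ∧
    ∀ n, D.ord X n = D.ord Y (n - N) + ∑ j, D.ord Y (n - l j) ∧
      ∀ i, Nonempty (D.K X n i ≃ₗ[ℚ] (D.K Y (n - N) i × ∀ j, D.K Y (n - l j) i))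

end Schemes

end Pool.Agent.Q73.SZ
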