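import Mathlib

/-!
# Euler characteristics of long exact sequences
-/

set_option autoImplicit false

namespace Pool.Agent.Q73.SZ

universe w

/-- All spaces are finite dimensional, and almost all are zero. -/
def FD (V : ℕ → Type w) [∀ i, AddCommGroup (V i)] [∀ i, Module ℚ (V i)] : Prop :=
  (∀ i, Module.Finite ℚ (V i)) ∧ ∃ N : ℕ, ∀ i, N ≤ i → Subsingleton (V i)

/-- The Euler characteristic `∑ (-1)^i dim V_i`. -/
noncomputable def chi (V : ℕ → Type w) [∀ i, AddCommGroup (V i)] [∀ i, Module ℚ (V i)] : ℤ :=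
  ∑ᶠ i : ℕ, (-1 : ℤ) ^ i * Module.finrank ℚ (V i)

section

variable {V W : ℕ → Type w} [∀ i, AddCommGroup (V i)] [∀ i, Module ℚ (V i)]
  [∀ i, AddCommGroup (W i)] [∀ i, Module ℚ (W i)]

lemma chi_eq {N : ℕ} (h : ∀ i, N ≤ i → Subsingleton (V i)) :
    chi V = ∑ i ∈ Finset.range N, (-1 : ℤ) ^ i * Module.finrank ℚ (V i) := by
  unfold chi
  apply finsum_eq_sum_of_support_subset
  intro i hi
  rw [Function.mem_support] at hi
  rw [Finset.coe_range, Set.mem_Iio]
  by_contra hN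
  have := h i (not_lt.1 hN)
  apply hi
  rw [Module.finrank_zero_of_subsingleton]
  simp

lemma fd_congr (e : ∀ i, Nonempty (V i ≃ₗ[ℚ] W i)) (h : FD V) : FD W := by
  refine ⟨fun i => ?_, ?_⟩
  · obtain ⟨e⟩ := e i
    have := h.1 i
    exact Module.Finite.equiv e
  · obtain ⟨N, hN⟩ := h.2
    refine ⟨N, fun i hi => ?_⟩
    obtain ⟨e⟩ := e i
    have := hN i hi
    exact e.symm.toEquiv.subsingleton

lemma chi_congr (e : ∀ i, Nonempty (V i ≃ₗ[ℚ] W i)) : chi V = chi W := by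
  unfold chi
  congr 1
  funext i
  obtain ⟨e⟩ := e i
  rw [e.finrank_eq]

lemma fd_zero (h : ∀ i, Subsingleton (V i)) : FD V :=
  ⟨fun i => by have := h i; infer_instance, 0, fun i _ => h i⟩

lemma chi_zero (h : ∀ i, Subsingleton (V i)) : chi V = 0 := by
  rw [chi_eq (N := 0) fun i _ => h i]
  simp

end

section

variable {A B C : ℕ → Type w} [∀ i, AddCommGroup (A i)] [∀ i, Module ℚ (A i)]
  [∀ i, AddCommGroup (B i)] [∀ i, Module ℚ (B i)]
  [∀ i, AddCommGroup (C i)] [∀ i, Module ℚ (C i)]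

/-- A long exact sequence
`… ⟶ C_(i+1) ⟶ A_i ⟶ B_i ⟶ C_i ⟶ A_(i-1) ⟶ … ⟶ A_0 ⟶ B_0 ⟶ C_0 ⟶ 0`. -/
def LongExact (f : ∀ i, A i →ₗ[ℚ] B i) (g : ∀ i, B i →ₗ[ℚ] C i)
    (h : ∀ i, C (i + 1) →ₗ[ℚ] A i) : Prop :=
  (∀ i, Function.Exact (f i) (g i)) ∧ (∀ i, Function.Exact (g (i + 1)) (h i)) ∧
    (∀ i, Function.Exact (h i) (f i)) ∧ Function.Surjective (g 0)

variable {f : ∀ i, A i →ₗ[ℚ] B i} {g : ∀ i, B i →ₗ[ℚ] C i} {h : ∀ i, C (i + 1) →ₗ[ℚ] A i}

lemma finite_mid {X Y Z : Type w} [AddCommGroup X] [Module ℚ X] [AddCommGroup Y] [Module ℚ Y]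
    [AddCommGroup Z] [Module ℚ Z] (u : X →ₗ[ℚ] Y) (v : Y →ₗ[ℚ] Z) (huv : Function.Exact u v)
    [Module.Finite ℚ X] [Module.Finite ℚ Z] : Module.Finite ℚ Y := by
  have h1 : LinearMap.ker v = LinearMap.range u := huv.linearMap_ker_eq
  have h2 : Module.Finite ℚ (LinearMap.ker v) := by rw [h1]; infer_instance
  have h3 : Module.Finite ℚ (LinearMap.range v) := inferInstance
  have h4 : Module.Finite ℚ (Y ⧸ LinearMap.ker v) :=
    Module.Finite.equiv v.quotKerEquivRange.symm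
  exact Module.Finite.of_submodule_quotient (LinearMap.ker v)

lemma subsingleton_mid {X Y Z : Type w} [AddCommGroup X] [Module ℚ X] [AddCommGroup Y]
    [Module ℚ Y] [AddCommGroup Z] [Module ℚ Z] (u : X →ₗ[ℚ] Y) (v : Y →ₗ[ℚ] Z)
    (huv : Function.Exact u v) [Subsingleton X] [Subsingleton Z] : Subsingleton Y := by
  refine subsingleton_of_forall_eq 0 fun a => ?_
  obtain ⟨b, rfl⟩ := (huv a).1 (Subsingleton.elim _ _)
  rw [Subsingleton.elim b 0, map_zero]

lemma fd_B (hE : LongExact f g h) (hA : FD A) (hC : FD C) : FD B := by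
  obtain ⟨h1, h2, h3, h4⟩ := hE
  obtain ⟨a1, N, a2⟩ := hA
  obtain ⟨c1, N', c2⟩ := hC
  refine ⟨fun i => ?_, N + N', fun i hi => ?_⟩
  · have := a1 i
    have := c1 i
    exact finite_mid (f i) (g i) (h1 i)
  · have := a2 i (by omega)
    have := c2 i (by omega)
    exact subsingleton_mid (f i) (g i) (h1 i)

lemma fd_C (hE : LongExact f g h) (hA : FD A) (hB : FD B) : FD C := by
  obtain ⟨h1, h2, h3, h4⟩ := hE
  obtain ⟨a1, N, a2⟩ := hA
  obtain ⟨b1, N', b2⟩ := hB
  refine ⟨fun i => ?_, N + N' + 1, fun i hi => ?_⟩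
  · rcases i with - | i
    · have := b1 0
      exact Module.Finite.of_surjective (g 0) h4
    · have := a1 i
      have := b1 (i + 1)
      exact finite_mid (g (i + 1)) (h i) (h2 i)
  · rcases i with - | i
    · omega
    · have := a2 i (by omega)
      have := b2 (i + 1) (by omega)
      exact subsingleton_mid (g (i + 1)) (h i) (h2 i)

lemma telescope (t : ℕ → ℤ) : ∀ N : ℕ,
    ∑ i ∈ Finset.range N, (-1 : ℤ) ^ i * (t i + t (i + 1)) = t 0 - (-1) ^ N * t N := by
  intro N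
  induction N with
  | zero => simp
  | succ N ih => rw [Finset.sum_range_succ, ih, pow_succ]; ring

lemma finrank_mid {X Y Z : Type w} [AddCommGroup X] [Module ℚ X] [AddCommGroup Y] [Module ℚ Y]
    [AddCommGroup Z] [Module ℚ Z] (u : X →ₗ[ℚ] Y) (v : Y →ₗ[ℚ] Z) (huv : Function.Exact u v)
    [Module.Finite ℚ Y] : Module.finrank ℚ Y =
      Module.finrank ℚ (LinearMap.range u) + Module.finrank ℚ (LinearMap.range v) := by
  rw [← v.finrank_range_add_finrank_ker, huv.linearMap_ker_eq, add_comm]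

/-- The Euler characteristic is additive in long exact sequences. -/
theorem chi_add (hE : LongExact f g h) (hA : FD A) (hB : FD B) (hC : FD C) :
    chi C = chi B - chi A := by
  obtain ⟨h1, h2, h3, h4⟩ := hE
  obtain ⟨a1, Na, a2⟩ := hA
  obtain ⟨b1, Nb, b2⟩ := hB
  obtain ⟨c1, Nc, c2⟩ := hC
  obtain ⟨N, hN⟩ : ∃ N, N = Na + Nb + Nc + 1 := ⟨_, rfl⟩
  rw [chi_eq (V := A) (N := N) fun i hi => a2 i (by omega),
    chi_eq (V := B) (N := N) fun i hi => b2 i (by omega),
    chi_eq (V := C) (N := N) fun i hi => c2 i (by omega), eq_sub_iff_add_eq]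
  have hA' : ∀ i, (Module.finrank ℚ (A i) : ℤ) = Module.finrank ℚ (LinearMap.range (h i)) +
      Module.finrank ℚ (LinearMap.range (f i)) := by
    intro i
    have := a1 i
    exact_mod_cast finrank_mid (h i) (f i) (h3 i)
  have hB' : ∀ i, (Module.finrank ℚ (B i) : ℤ) = Module.finrank ℚ (LinearMap.range (f i)) +
      Module.finrank ℚ (LinearMap.range (g i)) := by
    intro i
    have := b1 i
    exact_mod_cast finrank_mid (f i) (g i) (h1 i)
  obtain ⟨t, ht⟩ : ∃ t : ℕ → ℤ, t = fun i => Nat.casesOn i 0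
    (fun j => (Module.finrank ℚ (LinearMap.range (h j)) : ℤ)) := ⟨_, rfl⟩
  have ht0 : t 0 = 0 := congrFun ht 0
  have ht1 : ∀ i, t (i + 1) = Module.finrank ℚ (LinearMap.range (h i)) := by
    exact fun i => congrFun ht (i + 1)
  have hC' : ∀ i, (Module.finrank ℚ (C i) : ℤ) = Module.finrank ℚ (LinearMap.range (g i)) +
      t i := by
    intro i
    rcases i with - | i
    · rw [ht0, add_zero]
      have h5 : LinearMap.range (g 0) = ⊤ := LinearMap.range_eq_top.2 h4
      rw [h5, finrank_top]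
    · have := c1 (i + 1)
      rw [ht1]
      exact_mod_cast finrank_mid (g (i + 1)) (h i) (h2 i)
  have hsum : ∀ i, (-1 : ℤ) ^ i * Module.finrank ℚ (C i) + (-1 : ℤ) ^ i * Module.finrank ℚ (A i) =
      (-1 : ℤ) ^ i * Module.finrank ℚ (B i) + (-1 : ℤ) ^ i * (t i + t (i + 1)) := by
    intro i
    rw [hA', hB', hC', ht1]
    ring
  rw [← Finset.sum_add_distrib, Finset.sum_congr rfl fun i _ => hsum i, Finset.sum_add_distrib,
    telescope, ht0]
  have htN : t N = 0 := by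
    rw [hN, ht1]
    have h5 : Subsingleton (C (Na + Nb + Nc + 1)) := c2 _ (by omega)
    have h6 : h (Na + Nb + Nc) = 0 := by
      ext x
      rw [Subsingleton.elim x 0, map_zero, map_zero]
    rw [h6, LinearMap.range_zero, finrank_bot]
    rfl
  rw [htN]
  ring

end

end Pool.Agent.Q73.SZ
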