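import Pool.Agent.Q73.SZ.Defs

/-!
# Soulé's conjecture and torsors
-/

set_option autoImplicit false

namespace Pool.Agent.Q73.SZ

universe u w

section

variable {ι : Type} [Fintype ι] {A : ℕ → Type w} {B : ι → ℕ → Type w}
  [∀ i, AddCommGroup (A i)] [∀ i, Module ℚ (A i)]
  [∀ j i, AddCommGroup (B j i)] [∀ j i, Module ℚ (B j i)]

lemma fd_prod (hA : FD A) (hB : ∀ j, FD (B j)) : FD (fun i => A i × ∀ j, B j i) := by
  obtain ⟨a1, N, a2⟩ := hA
  choose b1 M b2 using hB
  refine ⟨fun i => ?_, N + ∑ j, M j, fun i hi => ?_⟩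
  · have := a1 i
    have : ∀ j, Module.Finite ℚ (B j i) := fun j => b1 j i
    infer_instance
  · have := a2 i (by omega)
    have : ∀ j, Subsingleton (B j i) := fun j => b2 j i (by
      have := Finset.single_le_sum (f := M) (fun _ _ => Nat.zero_le _) (Finset.mem_univ j)
      omega)
    infer_instance

lemma fd_fst (h : FD (fun i => A i × ∀ j, B j i)) : FD A := by
  obtain ⟨h1, N, h2⟩ := h
  refine ⟨fun i => ?_, N, fun i hi => ?_⟩
  · have := h1 i
    exact Module.Finite.of_surjective (LinearMap.fst ℚ (A i) (∀ j, B j i))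
      LinearMap.fst_surjective
  · have := h2 i hi
    exact (LinearMap.fst_surjective (R := ℚ) (M := A i) (M₂ := ∀ j, B j i)).subsingleton

lemma chi_prod (hA : FD A) (hB : ∀ j, FD (B j)) :
    chi (fun i => A i × ∀ j, B j i) = chi A + ∑ j, chi (B j) := by
  have hP := fd_prod hA hB
  obtain ⟨a1, N, a2⟩ := hA
  obtain ⟨p1, L, p2⟩ := hP
  choose b1 M b2 using hB
  obtain ⟨T, hT⟩ : ∃ T, T = N + L + ∑ j, M j := ⟨_, rfl⟩
  rw [chi_eq (V := fun i => A i × ∀ j, B j i) (N := T) fun i hi => p2 i (by omega),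
    chi_eq (V := A) (N := T) fun i hi => a2 i (by omega)]
  have h1 : ∀ j, chi (B j) = ∑ i ∈ Finset.range T, (-1 : ℤ) ^ i * Module.finrank ℚ (B j i) :=
    fun j => chi_eq fun i hi => b2 j i (by
      have := Finset.single_le_sum (f := M) (fun _ _ => Nat.zero_le _) (Finset.mem_univ j)
      omega)
  rw [Finset.sum_congr rfl fun j _ => h1 j, Finset.sum_comm, ← Finset.sum_add_distrib]
  refine Finset.sum_congr rfl fun i _ => ?_
  have := a1 i
  have : ∀ j, Module.Finite ℚ (B j i) := fun j => b1 j i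
  rw [Module.finrank_prod, Module.finrank_pi_fintype, ← Finset.mul_sum]
  push_cast
  ring

end

/-- Downward induction. -/
lemma down {P : ℤ → Prop} (h0 : ∃ d : ℤ, ∀ n, d < n → P n) {m : ℤ}
    (h : ∀ n, m ≤ n → (∀ n', n < n' → P n') → P n) : ∀ n, m ≤ n → P n := by
  obtain ⟨d, hd⟩ := h0
  have key : ∀ p : ℕ, ∀ n, m ≤ n → d < n + p → P n := by
    intro p
    induction p with
    | zero => intro n _ hn; exact hd n (by simpa using hn)
    | succ p ih =>
      intro n hm hn
      refine h n hm fun n' hn' => ih n' (by omega) ?_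
      push_cast at hn
      omega
  intro n hm
  exact key (d + 1 - n).toNat n hm (by omega)

variable {D : Schemes.{u, w}}

lemma soule_large (hD : D.IsArithmetic) (Y : D.Sch) : ∃ d : ℤ, ∀ n, d < n → D.Soule Y n := by
  obtain ⟨d, hd⟩ := hD.large Y
  refine ⟨d, fun n hn => ?_⟩
  obtain ⟨h1, h2⟩ := hd n hn
  exact ⟨fd_zero h2, by rw [h1, chi_zero h2, neg_zero]⟩

lemma affine_iff (hD : D.IsArithmetic) {r : ℕ} {X Y : D.Sch} (h : D.Affine r X Y) (n : ℤ) :
    D.Soule X n ↔ D.Soule Y (n - r) := by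
  obtain ⟨h1, h2⟩ := hD.affine r X Y h n
  unfold Schemes.Soule
  rw [h1, chi_congr h2]
  constructor
  · rintro ⟨a, b⟩; exact ⟨fd_congr h2 a, b⟩
  · rintro ⟨a, b⟩; exact ⟨fd_congr (fun i => (h2 i).map LinearEquiv.symm) a, b⟩

lemma mult_up (hD : D.IsArithmetic) {X Y : D.Sch} (h : D.Mult X Y) {n : ℤ}
    (h1 : D.Soule Y n) (h2 : D.Soule Y (n - 1)) : D.Soule X n := by
  obtain ⟨e1, f, g, k, e2⟩ := hD.mult X Y h n
  have h3 := fd_C e2 h1.1 h2.1
  refine ⟨h3, ?_⟩
  rw [e1, h1.2, h2.2, chi_add e2 h1.1 h2.1 h3]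
  ring

lemma mult_down (hD : D.IsArithmetic) {X Y : D.Sch} (h : D.Mult X Y) {n : ℤ}
    (h1 : D.Soule Y n) (h2 : D.Soule X n) : D.Soule Y (n - 1) := by
  obtain ⟨e1, f, g, k, e2⟩ := hD.mult X Y h n
  have h3 := fd_B e2 h1.1 h2.1
  refine ⟨h3, ?_⟩
  have h4 := chi_add e2 h1.1 h3 h2.1
  have h5 := h2.2
  rw [e1, h4, h1.2] at h5
  linarith

lemma mult_iff (hD : D.IsArithmetic) {X Y : D.Sch} (h : D.Mult X Y) (m : ℤ) :
    (∀ n, m + 1 ≤ n → D.Soule X n) ↔ ∀ n, m ≤ n → D.Soule Y n := by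
  constructor
  · intro hX
    refine down (soule_large hD Y) fun n hn ih => ?_
    have h1 := mult_down hD h (n := n + 1) (ih _ (by omega)) (hX _ (by omega))
    rwa [add_sub_cancel_right] at h1
  · intro hY n hn
    exact mult_up hD h (hY n (by omega)) (hY (n - 1) (by omega))

lemma flag_iff (hD : D.IsArithmetic) {N : ℕ} {X Y : D.Sch} (h : D.Flag N X Y) (m : ℤ) :
    (∀ n, m + N ≤ n → D.Soule X n) ↔ ∀ n, m ≤ n → D.Soule Y n := by
  obtain ⟨c, l, hl, hn⟩ := hD.flag N X Y h
  constructor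
  · intro hX
    refine down (soule_large hD Y) fun n hmn ih => ?_
    obtain ⟨e1, e2⟩ := hn (n + N)
    obtain ⟨x1, x2⟩ := hX (n + N) (by omega)
    have h1 : ∀ j, D.Soule Y (n + N - l j) := fun j => ih _ (by have := hl j; omega)
    have h2 := fd_congr e2 x1
    have h3 := fd_fst (B := fun j i => D.K Y (n + N - l j) i) h2
    have h4 := chi_prod (B := fun j i => D.K Y (n + N - l j) i) h3 (fun j => (h1 j).1)
    rw [← chi_congr e2] at h4
    have h5 : D.Soule Y (n + N - N) := by
      refine ⟨h3, ?_⟩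
      have h6 : ∑ j, D.ord Y (n + N - l j) = -∑ j, chi (D.K Y (n + N - l j)) := by
        rw [← Finset.sum_neg_distrib]
        exact Finset.sum_congr rfl fun j _ => (h1 j).2
      rw [x2, h4, h6] at e1
      linarith
    rwa [add_sub_cancel_right] at h5
  · intro hY n hmn
    obtain ⟨e1, e2⟩ := hn n
    have h1 : ∀ j, D.Soule Y (n - l j) := fun j => hY _ (by have := hl j; omega)
    have h2 := hY (n - N) (by omega)
    have h3 := fd_prod (B := fun j i => D.K Y (n - l j) i) h2.1 (fun j => (h1 j).1)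
    have h4 := chi_prod (B := fun j i => D.K Y (n - l j) i) h2.1 (fun j => (h1 j).1)
    refine ⟨fd_congr (fun i => (e2 i).map LinearEquiv.symm) h3, ?_⟩
    have h6 : ∑ j, D.ord Y (n - l j) = -∑ j, chi (D.K Y (n - l j)) := by
      rw [← Finset.sum_neg_distrib]
      exact Finset.sum_congr rfl fun j _ => (h1 j).2
    rw [chi_congr e2, h4, e1, h6, h2.2]
    ring

theorem tower_iff (hD : D.IsArithmetic) {t : ℕ} {X Y : D.Sch} (h : D.Tower t X Y) :
    ∀ m : ℤ, (∀ n, m + t ≤ n → D.Soule X n) ↔ ∀ n, m ≤ n → D.Soule Y n := by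
  induction h with
  | refl X => intro m; simp
  | @affine r t X Y Z hXY _ ih =>
    intro m
    rw [← ih m]
    constructor
    · intro hX n hn
      have h1 := (affine_iff hD hXY (n + r)).1 (hX (n + r) (by push_cast; omega))
      rwa [add_sub_cancel_right] at h1
    · intro hY n hn
      exact (affine_iff hD hXY n).2 (hY (n - r) (by push_cast at hn; omega))
  | @mult t X Y Z hXY _ ih =>
    intro m
    rw [← ih m, ← mult_iff hD hXY (m + t)]
    have e : m + ((1 + t : ℕ) : ℤ) = m + t + 1 := by push_cast; ring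
    rw [e]
  | @flag N t X Y Z hXY _ ih =>
    intro m
    rw [← ih m, ← flag_iff hD hXY (m + t)]
    have e : m + ((N + t : ℕ) : ℤ) = m + t + N := by push_cast; ring
    rw [e]

/-- The difference of the two sides of Soulé's formula for `X` at `s = n`. -/
noncomputable def defect (D : Schemes.{u, w}) (X : D.Sch) (n : ℤ) : ℤ :=
  D.ord X n + chi (D.K X n)

/-- A single point: Soulé's conjecture for `Y` at `s = m` and the defects of the torsor `X` at the
points `s > m`. -/
theorem single (hD : D.IsArithmetic) {X Y : D.Sch} (h : D.Mult X Y) (m : ℤ)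
    (hF : ∀ n, m < n → FD (D.K X n)) :
    ∃ p₀ : ℕ, ∀ p : ℕ, p₀ ≤ p →
      (D.Soule Y m ↔ ∑ i ∈ Finset.range p, defect D X (m + 1 + i) = 0) := by
  have hY : ∀ n, m ≤ n → FD (D.K Y n) := by
    refine down ?_ fun n hn ih => ?_
    · obtain ⟨d, hd⟩ := soule_large hD Y
      exact ⟨d, fun n hn => (hd n hn).1⟩
    · obtain ⟨_, f, g, k, e2⟩ := hD.mult X Y h (n + 1)
      have h1 := fd_B e2 (ih _ (by omega)) (hF _ (by omega))
      rwa [add_sub_cancel_right] at h1
  have hstep : ∀ n, m ≤ n → defect D X (n + 1) = defect D Y n - defect D Y (n + 1) := by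
    intro n hn
    obtain ⟨e1, f, g, k, e2⟩ := hD.mult X Y h (n + 1)
    have h1 := hY n hn
    have h2 := chi_add e2 (hY (n + 1) (by omega)) (by rwa [add_sub_cancel_right])
      (hF (n + 1) (by omega))
    unfold defect
    rw [e1, h2, add_sub_cancel_right]
    ring
  have hsum : ∀ p : ℕ, ∑ i ∈ Finset.range p, defect D X (m + 1 + i) =
      defect D Y m - defect D Y (m + p) := by
    intro p
    induction p with
    | zero => simp
    | succ p ih =>
      have e : m + 1 + (p : ℤ) = (m + p) + 1 := by ring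
      rw [Finset.sum_range_succ, ih, e, hstep (m + p) (by omega)]
      push_cast
      rw [← add_assoc]
      ring
  obtain ⟨d, hd⟩ := soule_large hD Y
  refine ⟨(d + 1 - m).toNat, fun p hp => ?_⟩
  have h1 : defect D Y (m + p) = 0 := by
    have h2 := (hd (m + p) (by omega)).2
    unfold defect
    rw [h2]; ring
  rw [hsum, h1, sub_zero]
  unfold Schemes.Soule defect
  constructor
  · rintro ⟨_, h3⟩
    rw [h3]; ring
  · intro h3
    exact ⟨hY m le_rfl, by linarith⟩

end Pool.Agent.Q73.SZ
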